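import Pool.Agent.Lib.MP_a7495c_an.Defs

open MeasureTheory Set Filter
open scoped ENNReal

namespace Pool.Agent.Lib.MP_a7495c_an

variable {d : ℕ} {α : ℝ}

lemma rieszFun_of_ne {m : ℕ} {x : Fin m → EuclideanSpace ℝ (Fin d)}
    {y : EuclideanSpace ℝ (Fin d)} (h : ∀ j, y ≠ x j) :
    rieszFun α x y = Real.exp (-∑ j, (dist y (x j)) ^ (-α)) := by
  unfold rieszFun
  rw [if_neg]
  push Not
  exact h

lemma rieszFun_of_eq {m : ℕ} {x : Fin m → EuclideanSpace ℝ (Fin d)}
    {y : EuclideanSpace ℝ (Fin d)} (h : ∃ j, y = x j) : rieszFun α x y = 0 := by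
  unfold rieszFun
  rw [if_pos h]

/-- product formula with the smooth function `exp (-1/t)` extended by `0` -/
lemma rieszFun_eq_prod (hα : 0 < α) {m : ℕ} (x : Fin m → EuclideanSpace ℝ (Fin d))
    (y : EuclideanSpace ℝ (Fin d)) :
    rieszFun α x y = ∏ j, expNegInvGlue ((dist y (x j)) ^ α) := by
  by_cases h : ∃ j, y = x j
  · rw [rieszFun_of_eq h]
    obtain ⟨j, hj⟩ := h
    symm
    apply Finset.prod_eq_zero (Finset.mem_univ j)
    rw [hj, dist_self, Real.zero_rpow hα.ne', expNegInvGlue.zero]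
  · push Not at h
    rw [rieszFun_of_ne h, ← Finset.sum_neg_distrib, Real.exp_sum]
    refine Finset.prod_congr rfl fun j _ => ?_
    have hd : 0 < dist y (x j) := dist_pos.mpr (h j)
    have hp : 0 < (dist y (x j)) ^ α := Real.rpow_pos_of_pos hd α
    unfold expNegInvGlue
    rw [if_neg (not_le.mpr hp), Real.rpow_neg hd.le]

lemma rieszFun_nonneg {m : ℕ} (x : Fin m → EuclideanSpace ℝ (Fin d))
    (y : EuclideanSpace ℝ (Fin d)) : 0 ≤ rieszFun α x y := by
  by_cases h : ∃ j, y = x j
  · rw [rieszFun_of_eq h]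
  · push Not at h
    rw [rieszFun_of_ne h]
    exact (Real.exp_pos _).le

lemma rieszFun_le_one {m : ℕ} (x : Fin m → EuclideanSpace ℝ (Fin d))
    (y : EuclideanSpace ℝ (Fin d)) : rieszFun α x y ≤ 1 := by
  by_cases h : ∃ j, y = x j
  · rw [rieszFun_of_eq h]; norm_num
  · push Not at h
    rw [rieszFun_of_ne h]
    apply Real.exp_le_one_iff.mpr
    rw [neg_nonpos]
    exact Finset.sum_nonneg fun j _ => Real.rpow_nonneg dist_nonneg _

lemma continuous_rieszFun (hα : 0 < α) {m : ℕ} :
    Continuous fun p : (Fin m → EuclideanSpace ℝ (Fin d)) × EuclideanSpace ℝ (Fin d) =>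
      rieszFun α p.1 p.2 := by
  simp_rw [rieszFun_eq_prod hα]
  refine continuous_finsetProd _ fun j _ => ?_
  have h1 : Continuous expNegInvGlue := expNegInvGlue.contDiff (n := 0) |>.continuous
  refine h1.comp ?_
  refine Continuous.rpow_const ?_ (fun _ => Or.inr hα.le)
  exact continuous_snd.dist ((continuous_apply j).comp continuous_fst)

lemma continuous_rieszFun_right (hα : 0 < α) {m : ℕ} (x : Fin m → EuclideanSpace ℝ (Fin d)) :
    Continuous (rieszFun α x) :=
  (continuous_rieszFun hα).comp (continuous_const.prodMk continuous_id)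

lemma integrable_rieszFun (hα : 0 < α) {m : ℕ} (x : Fin m → EuclideanSpace ℝ (Fin d))
    (μ : Measure (EuclideanSpace ℝ (Fin d))) [IsFiniteMeasure μ] :
    Integrable (rieszFun α x) μ := by
  refine Integrable.of_bound (continuous_rieszFun_right hα x).measurable.aestronglyMeasurable 1
    (Eventually.of_forall fun y => ?_)
  rw [Real.norm_eq_abs, abs_of_nonneg (rieszFun_nonneg x y)]
  exact rieszFun_le_one x y

/-- pointwise form of the Bernstein–Markov inequality -/
lemma bernsteinMarkov_of_forall {K : Set (EuclideanSpace ℝ (Fin d))} (hne : K.Nonempty)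
    {μ : Measure (EuclideanSpace ℝ (Fin d))} {M : ℕ → ℝ} (hM : ∀ n, 0 < M n)
    (hlim : Tendsto (fun n : ℕ => (M n) ^ (1 / (n : ℝ))) atTop (nhds 1))
    (h : ∀ n : ℕ, 2 ≤ n → ∀ x : Fin (n - 1) → EuclideanSpace ℝ (Fin d), (∀ j, x j ∈ K) →
      ∀ y ∈ K, rieszFun α x y ≤ M n * ∫ z, rieszFun α x z ∂μ) : BernsteinMarkov α K μ := by
  refine ⟨M, hM, hlim, fun n hn x hx => ?_⟩
  have : Nonempty K := hne.to_subtype
  refine ciSup_le fun y => ?_
  rw [abs_of_nonneg (rieszFun_nonneg x y.1)]
  exact h n hn x hx y.1 y.2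

lemma le_of_iSup_le {K : Set (EuclideanSpace ℝ (Fin d))} {m : ℕ}
    {x : Fin m → EuclideanSpace ℝ (Fin d)} {C : ℝ}
    (h : (⨆ y : K, |rieszFun α x y|) ≤ C) {y : EuclideanSpace ℝ (Fin d)} (hy : y ∈ K) :
    rieszFun α x y ≤ C := by
  have hb : BddAbove (Set.range fun y : K => |rieszFun α x y|) := by
    refine ⟨1, ?_⟩
    rintro _ ⟨z, rfl⟩
    change |rieszFun α x z| ≤ 1
    rw [abs_of_nonneg (rieszFun_nonneg x z.1)]
    exact rieszFun_le_one x z.1
  have h1 := le_ciSup hb ⟨y, hy⟩
  exact (le_abs_self _).trans (h1.trans h)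

lemma isDiscreteOn_of_countable {K : Set (EuclideanSpace ℝ (Fin d))}
    {μ : Measure (EuclideanSpace ℝ (Fin d))} {s : Set (EuclideanSpace ℝ (Fin d))}
    (hs : s.Countable) (hsK : s ⊆ K) (hμ : μ sᶜ = 0) : IsDiscreteOn K μ := by
  classical
  -- transport the index type to a small type
  let t : Set (EuclideanSpace ℝ (Fin d)) := {z | z ∈ s ∧ 0 < μ {z}}
  have htc : t.Countable := hs.mono fun z hz => hz.1
  have : Countable t := htc.to_subtype
  refine ⟨t, inferInstance, fun i => μ {i.1}, fun i => i.1, fun i => i.2.2, fun i => hsK i.2.1, ?_⟩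
  ext A hA
  rw [Measure.sum_apply _ hA]
  have h1 : μ A = μ (A ∩ s) := by
    have h2 : μ (A \ s) = 0 := measure_mono_null (fun x hx => hx.2) hμ
    have h3 := measure_inter_add_sdiff A hs.measurableSet (μ := μ)
    rw [← h3, h2, add_zero]
  have h4 : A ∩ s = ⋃ z ∈ s ∩ A, {z} := by
    ext y; simp [and_comm]
  have hsc : Countable s := hs.to_subtype
  have h5 : μ (A ∩ s) = ∑' z : s, μ {z.1} * A.indicator 1 z.1 := by
    have h6 : A ∩ s = ⋃ z : s, (A ∩ {z.1}) := by
      ext y
      simp only [mem_inter_iff, mem_iUnion, mem_singleton_iff]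
      constructor
      · rintro ⟨ha, hb⟩; exact ⟨⟨y, hb⟩, ha, rfl⟩
      · rintro ⟨z, ha, hb⟩; exact ⟨ha, hb ▸ z.2⟩
    rw [h6, measure_iUnion]
    · refine tsum_congr fun z => ?_
      by_cases hz : z.1 ∈ A
      · rw [indicator_of_mem hz]
        have : A ∩ {z.1} = {z.1} := by
          ext y; simp only [mem_inter_iff, mem_singleton_iff]
          exact ⟨fun h => h.2, fun h => ⟨h ▸ hz, h⟩⟩
        rw [this]; simp
      · rw [indicator_of_notMem hz]
        have : A ∩ {z.1} = ∅ := by
          ext y; simp only [mem_inter_iff, mem_singleton_iff, mem_empty_iff_false, iff_false]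
          rintro ⟨h, rfl⟩; exact hz h
        rw [this]; simp
    · intro a b hab
      rw [Function.onFun, Set.disjoint_left]
      rintro y ⟨_, h1⟩ ⟨_, h2⟩
      apply hab
      apply Subtype.ext
      rw [mem_singleton_iff] at h1 h2
      rw [← h1, h2]
    · intro z
      exact hA.inter (measurableSet_singleton _)
  rw [h1, h5]
  simp only [Measure.smul_apply, smul_eq_mul, Measure.dirac_apply' _ hA]
  -- compare sums over s and t
  let F : EuclideanSpace ℝ (Fin d) → ℝ≥0∞ := fun z => μ {z} * A.indicator 1 z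
  have h7 : ∑' z : s, F z = ∑' z, s.indicator F z := tsum_subtype s F
  have h8 : ∑' z : t, F z = ∑' z, t.indicator F z := tsum_subtype t F
  have h9 : s.indicator F = t.indicator F := by
    funext z
    by_cases hz : z ∈ s
    · by_cases hz2 : 0 < μ {z}
      · rw [indicator_of_mem hz, indicator_of_mem (show z ∈ t from ⟨hz, hz2⟩)]
      · rw [indicator_of_mem hz, indicator_of_notMem (fun h : z ∈ t => hz2 h.2)]
        have : μ {z} = 0 := by
          rwa [pos_iff_ne_zero, not_not] at hz2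
        simp [F, this]
    · rw [indicator_of_notMem hz, indicator_of_notMem (fun h : z ∈ t => hz h.1)]
  change ∑' z : s, F z = ∑' z : t, F z
  rw [h7, h8, h9]

end Pool.Agent.Lib.MP_a7495c_an
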