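import Mathlib

/-!
# Riesz energy, capacity and the Riesz Bernstein–Markov property

The definitions follow the problem file. A Borel measure on a compact set `K ⊆ ℝ^d` is represented
by a Borel measure `μ` on `ℝ^d` with `μ Kᶜ = 0`.
-/

open MeasureTheory Set Filter
open scoped ENNReal

namespace Pool.Agent.Lib.MP_a7495c_an

variable {d : ℕ}

/-- The Riesz energy `I(ν) = ∬ |x - y|^(-α) dν(x) dν(y)`, with values in `[0, ∞]`
(here `0 ^ (-α) = ∞` for `α > 0`). -/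
noncomputable def energy (α : ℝ) (ν : Measure (EuclideanSpace ℝ (Fin d))) : ℝ≥0∞ :=
  ∫⁻ x, ∫⁻ y, (edist x y) ^ (-α) ∂ν ∂ν

/-- `K` has positive Riesz `α`-capacity: some Borel probability measure on `K` has finite Riesz
energy. -/
def PositiveCapacity (α : ℝ) (K : Set (EuclideanSpace ℝ (Fin d))) : Prop :=
  ∃ ν : Measure (EuclideanSpace ℝ (Fin d)), IsProbabilityMeasure ν ∧ ν Kᶜ = 0 ∧ energy α ν < ∞

open Classical in
/-- The function `y ↦ exp (- ∑ j, |y - x j|^(-α))`, with value `0` at the points `x j`. -/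
noncomputable def rieszFun (α : ℝ) {m : ℕ} (x : Fin m → EuclideanSpace ℝ (Fin d))
    (y : EuclideanSpace ℝ (Fin d)) : ℝ :=
  if ∃ j, y = x j then 0 else Real.exp (-∑ j, (dist y (x j)) ^ (-α))

/-- The (unweighted) Riesz Bernstein–Markov property of a measure `μ` on `K`: there are constants
`M n > 0` with `(M n)^(1/n) → 1` such that `‖f‖_K ≤ M n * ∫ f dμ` for all `n ≥ 2` and all functions
`f` of the form `exp (- ∑_{j=2}^{n} |y - x_j|^(-α))` with `x_2, …, x_n ∈ K`. -/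
def BernsteinMarkov (α : ℝ) (K : Set (EuclideanSpace ℝ (Fin d)))
    (μ : Measure (EuclideanSpace ℝ (Fin d))) : Prop :=
  ∃ M : ℕ → ℝ, (∀ n, 0 < M n) ∧ Tendsto (fun n : ℕ => (M n) ^ (1 / (n : ℝ))) atTop (nhds 1) ∧
    ∀ n : ℕ, 2 ≤ n → ∀ x : Fin (n - 1) → EuclideanSpace ℝ (Fin d), (∀ j, x j ∈ K) →
      (⨆ y : K, |rieszFun α x y|) ≤ M n * ∫ y, rieszFun α x y ∂μ

/-- A measure is discrete on `K` if it is `∑ c_i δ_{z_i}` for countably many points `z_i ∈ K` and
weights `c_i > 0`. -/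
def IsDiscreteOn (K : Set (EuclideanSpace ℝ (Fin d))) (μ : Measure (EuclideanSpace ℝ (Fin d))) :
    Prop :=
  ∃ (ι : Type) (_ : Countable ι) (c : ι → ℝ≥0∞) (z : ι → EuclideanSpace ℝ (Fin d)),
    (∀ i, 0 < c i) ∧ (∀ i, z i ∈ K) ∧ μ = Measure.sum fun i => c i • Measure.dirac (z i)

end Pool.Agent.Lib.MP_a7495c_an
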