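import Pool.Agent.Lib.MP_a7495c_an.Main

open MeasureTheory Set Filter
open scoped ENNReal

namespace Pool.Agent.Lib.MP_a7495c_an

variable {d : ℕ} {α : ℝ}

/-- For fixed `m` and an infinite compact set, the functions `f_x` are uniformly bounded below at
some point of a fixed finite set. -/
lemma exists_lower_bound (hα : 0 < α) {K : Set (EuclideanSpace ℝ (Fin d))} (hK : IsCompact K)
    (hinf : K.Infinite) (m : ℕ) :
    ∃ g > 0, ∀ x : Fin m → EuclideanSpace ℝ (Fin d), (∀ j, x j ∈ K) →
      ∃ p ∈ K, g ≤ rieszFun α x p := by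
  classical
  let emb := hinf.natEmbedding
  let p : ℕ → EuclideanSpace ℝ (Fin d) := fun i => (emb i : EuclideanSpace ℝ (Fin d))
  have hpK : ∀ i, p i ∈ K := fun i => (emb i).2
  have hpinj : Function.Injective p := fun a b h => emb.injective (Subtype.ext h)
  let G : (Fin m → EuclideanSpace ℝ (Fin d)) → ℝ := fun x =>
    ∑ i ∈ Finset.range (m + 1), rieszFun α x (p i)
  have hGc : Continuous G := by
    refine continuous_finsetSum _ fun i _ => ?_
    exact (continuous_rieszFun hα).comp (continuous_id.prodMk continuous_const)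
  have hKm : IsCompact (Set.pi univ fun _ : Fin m => K) := isCompact_univ_pi fun _ => hK
  have hne : (Set.pi univ fun _ : Fin m => K).Nonempty := ⟨fun _ => p 0, fun _ _ => hpK 0⟩
  obtain ⟨x₀, hx₀, hmin⟩ := hKm.exists_isMinOn hne hGc.continuousOn
  have hpos : ∀ x, 0 < G x := by
    intro x
    -- some p i is not among the x j
    obtain ⟨i, hi, hix⟩ : ∃ i ∈ Finset.range (m + 1), ∀ j, p i ≠ x j := by
      by_contra hcon
      push Not at hcon
      have hnef : Nonempty (Fin m) := by
        obtain ⟨j, _⟩ := hcon 0 (by simp)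
        exact ⟨j⟩
      choose! J hJ using hcon
      have h1 : (Finset.univ : Finset (Fin m)).card < (Finset.range (m + 1)).card := by simp
      obtain ⟨a, ha, b, hb, hab, hJab⟩ := Finset.exists_ne_map_eq_of_card_lt_of_maps_to h1
        (f := J) (fun _ _ => Finset.mem_univ _)
      apply hab
      apply hpinj
      rw [hJ a ha, hJ b hb, hJab]
    have h2 : 0 < rieszFun α x (p i) := by
      rw [rieszFun_of_ne hix]; exact Real.exp_pos _
    exact lt_of_lt_of_le h2 (Finset.single_le_sum (f := fun i => rieszFun α x (p i))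
      (fun i _ => rieszFun_nonneg x (p i)) hi)
  refine ⟨G x₀ / (m + 1), div_pos (hpos x₀) (by positivity), fun x hx => ?_⟩
  have hx' : x ∈ Set.pi univ fun _ : Fin m => K := fun j _ => hx j
  have h1 : G x₀ ≤ G x := hmin hx'
  by_contra hcon
  push Not at hcon
  have h2 : G x < G x₀ := by
    calc G x < ∑ _i ∈ Finset.range (m + 1), G x₀ / (m + 1) := by
          refine Finset.sum_lt_sum_of_nonempty (by simp) fun i _ => hcon (p i) (hpK i)
      _ = G x₀ := by
          rw [Finset.sum_const, Finset.card_range, nsmul_eq_mul]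
          push_cast
          field_simp
  exact absurd h1 (not_le.mpr h2)

/-- Discretising a measure at a small scale. -/
lemma exists_discretization (hα : 0 < α) {K : Set (EuclideanSpace ℝ (Fin d))} (hK : IsCompact K)
    (hinf : K.Infinite) {μ : Measure (EuclideanSpace ℝ (Fin d))} [IsFiniteMeasure μ]
    (hμK : μ Kᶜ = 0) (e : ℕ → EuclideanSpace ℝ (Fin d)) (heK : ∀ k, e k ∈ K)
    (hdense : ∀ η > 0, ∃ N, ∀ y ∈ K, ∃ k ≤ N, dist (e k) y < η)
    (m : ℕ) {M : ℝ} (hM : 0 < M)
    (h : ∀ x : Fin m → EuclideanSpace ℝ (Fin d), (∀ j, x j ∈ K) → ∀ y ∈ K,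
      rieszFun α x y ≤ M * ∫ z, rieszFun α x z ∂μ) :
    ∃ N : ℕ, ∀ x : Fin m → EuclideanSpace ℝ (Fin d), (∀ j, x j ∈ K) → ∀ y ∈ K,
      rieszFun α x y ≤ 2 * M * ∫ z, rieszFun α x z ∂(μ.map (SimpleFunc.nearestPt e N)) := by
  obtain ⟨g, hg, hlow⟩ := exists_lower_bound hα hK hinf m
  set W : ℝ := μ.real univ + 1 with hW
  have hW0 : 0 < W := by
    have : 0 ≤ μ.real univ := measureReal_nonneg
    linarith
  set ω : ℝ := g / M / (2 * W) with hω
  have hω0 : 0 < ω := by positivity
  have hcomp : IsCompact ((Set.pi univ fun _ : Fin m => K) ×ˢ K) :=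
    (isCompact_univ_pi fun _ => hK).prod hK
  have huc := hcomp.uniformContinuousOn_of_continuous
    (continuous_rieszFun (d := d) (m := m) hα).continuousOn
  rw [Metric.uniformContinuousOn_iff] at huc
  obtain ⟨η, hη, hunif⟩ := huc ω hω0
  obtain ⟨N, hN⟩ := hdense η hη
  refine ⟨N, fun x hx y hy => ?_⟩
  set φ := SimpleFunc.nearestPt e N with hφ
  have hφK : ∀ z, φ z ∈ K := by
    intro z
    simp only [hφ, SimpleFunc.nearestPt, SimpleFunc.map_apply]
    exact heK _
  have hφd : ∀ z ∈ K, dist (φ z) z < η := by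
    intro z hz
    obtain ⟨k, hk, hkd⟩ := hN z hz
    have h1 := SimpleFunc.edist_nearestPt_le e z hk
    rw [edist_dist, edist_dist] at h1
    have h2 : dist (φ z) z ≤ dist (e k) z := by
      have := (ENNReal.ofReal_le_ofReal_iff dist_nonneg).mp h1
      exact this
    exact lt_of_le_of_lt h2 hkd
  have hclose : ∀ z ∈ K, |rieszFun α x (φ z) - rieszFun α x z| ≤ ω := by
    intro z hz
    have h1 := hunif (x, φ z) ⟨fun j _ => hx j, hφK z⟩ (x, z) ⟨fun j _ => hx j, hz⟩ (by
      rw [Prod.dist_eq, dist_self, max_eq_right dist_nonneg]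
      exact hφd z hz)
    rw [Real.dist_eq] at h1
    exact h1.le
  have hφm : Measurable φ := φ.measurable
  have hint : Integrable (rieszFun α x) μ := integrable_rieszFun hα x μ
  have hmap : ∫ z, rieszFun α x z ∂(μ.map φ) = ∫ z, rieszFun α x (φ z) ∂μ :=
    integral_map hφm.aemeasurable
      (continuous_rieszFun_right hα x).measurable.aestronglyMeasurable
  have hint2 : Integrable (fun z => rieszFun α x (φ z)) μ := by
    refine Integrable.of_bound
      ((continuous_rieszFun_right hα x).measurable.comp hφm).aestronglyMeasurable 1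
      (Eventually.of_forall fun z => ?_)
    rw [Real.norm_eq_abs, abs_of_nonneg (rieszFun_nonneg x _)]
    exact rieszFun_le_one x _
  set I : ℝ := ∫ z, rieszFun α x z ∂μ with hI
  have hdiff : |∫ z, rieszFun α x (φ z) ∂μ - I| ≤ ω * μ.real univ := by
    rw [hI, ← integral_sub hint2 hint, ← Real.norm_eq_abs]
    refine norm_integral_le_of_norm_le_const ?_
    have hae : ∀ᵐ z ∂μ, z ∈ K := by
      rw [ae_iff]; exact hμK
    filter_upwards [hae] with z hz
    rw [Real.norm_eq_abs]
    exact hclose z hz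
  obtain ⟨p, hpK, hp⟩ := hlow x hx
  have hIlow : g / M ≤ I := by
    rw [div_le_iff₀ hM, mul_comm]
    exact hp.trans (h x hx p hpK)
  have hωW : ω * μ.real univ ≤ g / M / 2 := by
    have h1 : μ.real univ ≤ W := by linarith
    calc ω * μ.real univ ≤ ω * W := mul_le_mul_of_nonneg_left h1 hω0.le
      _ = g / M / 2 := by rw [hω]; field_simp
  have hI2 : I / 2 ≤ ∫ z, rieszFun α x (φ z) ∂μ := by
    rw [abs_le] at hdiff
    linarith [hdiff.1]
  rw [hmap]
  calc rieszFun α x y ≤ M * I := h x hx y hy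
    _ = 2 * M * (I / 2) := by ring
    _ ≤ 2 * M * ∫ z, rieszFun α x (φ z) ∂μ := by gcongr

/-- If a compact set carries a finite Bernstein–Markov measure then it carries a discrete one. -/
theorem exists_discrete_bm (hα : 0 < α) {K : Set (EuclideanSpace ℝ (Fin d))} (hK : IsCompact K)
    {μ : Measure (EuclideanSpace ℝ (Fin d))} [IsFiniteMeasure μ] (hμK : μ Kᶜ = 0)
    (hBM : BernsteinMarkov α K μ) :
    ∃ μ' : Measure (EuclideanSpace ℝ (Fin d)), IsFiniteMeasure μ' ∧ μ' Kᶜ = 0 ∧
      IsDiscreteOn K μ' ∧ BernsteinMarkov α K μ' := by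
  classical
  by_cases hfinK : K.Finite
  · exact ⟨μ, inferInstance, hμK, isDiscreteOn_of_countable hfinK.countable subset_rfl hμK, hBM⟩
  have hinf : K.Infinite := hfinK
  have hne : K.Nonempty := hinf.nonempty
  have : Nonempty K := hne.to_subtype
  obtain ⟨M, hM, hlim, hineq⟩ := hBM
  -- a dense sequence
  obtain ⟨e', he'⟩ := TopologicalSpace.exists_dense_seq K
  let e : ℕ → EuclideanSpace ℝ (Fin d) := fun k => (e' k : EuclideanSpace ℝ (Fin d))
  have heK : ∀ k, e k ∈ K := fun k => (e' k).2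
  have hdense : ∀ η > 0, ∃ N, ∀ y ∈ K, ∃ k ≤ N, dist (e k) y < η := by
    intro η hη
    have hcover : K ⊆ ⋃ k, Metric.ball (e k) η := by
      intro y hy
      have h1 := he' ⟨y, hy⟩
      rw [Metric.mem_closure_iff] at h1
      obtain ⟨_, ⟨k, rfl⟩, hk⟩ := h1 η hη
      exact mem_iUnion.mpr ⟨k, hk⟩
    obtain ⟨t, ht⟩ := hK.elim_finite_subcover (fun k => Metric.ball (e k) η)
      (fun k => Metric.isOpen_ball) hcover
    refine ⟨t.sup id, fun y hy => ?_⟩
    have h2 := ht hy
    simp only [mem_iUnion] at h2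
    obtain ⟨k, hkt, hky⟩ := h2
    refine ⟨k, Finset.le_sup (f := id) hkt, ?_⟩
    rw [dist_comm]
    exact hky
  have key : ∀ n : ℕ, ∃ N : ℕ, 2 ≤ n → ∀ x : Fin (n - 1) → EuclideanSpace ℝ (Fin d),
      (∀ j, x j ∈ K) → ∀ y ∈ K, rieszFun α x y ≤
        2 * M n * ∫ z, rieszFun α x z ∂(μ.map (SimpleFunc.nearestPt e N)) := by
    intro n
    by_cases hn : 2 ≤ n
    · obtain ⟨N, hN⟩ := exists_discretization hα hK hinf hμK e heK hdense (n - 1) (hM n)
        (fun x hx y hy => le_of_iSup_le (hineq n hn x hx) hy)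
      exact ⟨N, fun _ => hN⟩
    · exact ⟨0, fun h => absurd h hn⟩
  choose N hN using key
  let w : ℕ → ℝ := fun n => (1 : ℝ) / ((n : ℝ) + 1) ^ 2
  have hw0 : ∀ n, 0 < w n := fun n => by positivity
  let ν : ℕ → Measure (EuclideanSpace ℝ (Fin d)) := fun n =>
    ENNReal.ofReal (w n) • μ.map (SimpleFunc.nearestPt e (N n))
  let μ' : Measure (EuclideanSpace ℝ (Fin d)) := Measure.sum ν
  have hmeas : ∀ n, Measurable (SimpleFunc.nearestPt e (N n)) := fun n => SimpleFunc.measurable _
  have hsummable : Summable w := by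
    have h1 : Summable fun n : ℕ => (1 : ℝ) / ((n : ℝ)) ^ 2 := by
      exact Real.summable_one_div_nat_pow.mpr (one_lt_two)
    have h2 := (summable_nat_add_iff 1).mpr h1
    simpa [w] using h2
  have hfin : IsFiniteMeasure μ' := by
    constructor
    simp only [μ']
    rw [Measure.sum_apply _ MeasurableSet.univ]
    have h1 : ∀ n, ν n univ = ENNReal.ofReal (w n) * μ univ := by
      intro n
      simp only [ν]
      rw [Measure.smul_apply, smul_eq_mul, Measure.map_apply (hmeas n) MeasurableSet.univ,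
        preimage_univ]
    simp_rw [h1]
    rw [ENNReal.tsum_mul_right, ← ENNReal.ofReal_tsum_of_nonneg (fun n => (hw0 n).le) hsummable]
    exact ENNReal.mul_lt_top ENNReal.ofReal_lt_top (measure_lt_top μ univ)
  have hS : μ' (Set.range e)ᶜ = 0 := by
    have hSm : MeasurableSet (Set.range e)ᶜ := (countable_range e).measurableSet.compl
    simp only [μ']
    rw [Measure.sum_apply _ hSm, ENNReal.tsum_eq_zero]
    intro n
    simp only [ν]
    rw [Measure.smul_apply, smul_eq_mul, Measure.map_apply (hmeas n) hSm]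
    have : (SimpleFunc.nearestPt e (N n)) ⁻¹' (Set.range e)ᶜ = ∅ := by
      ext z
      simp only [mem_preimage, mem_compl_iff, mem_range, not_exists, mem_empty_iff_false, iff_false,
        not_forall, not_not]
      simp only [SimpleFunc.nearestPt, SimpleFunc.map_apply]
      exact ⟨_, rfl⟩
    rw [this, measure_empty, mul_zero]
  have hrangeK : Set.range e ⊆ K := by rintro _ ⟨k, rfl⟩; exact heK k
  refine ⟨μ', hfin, measure_mono_null (compl_subset_compl.mpr hrangeK) hS,
    isDiscreteOn_of_countable (countable_range e) hrangeK hS, ?_⟩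
  refine bernsteinMarkov_of_forall (M := fun n => 2 * M n * ((n : ℝ) + 1) ^ 2) hne
    (fun n => by have := hM n; positivity) ?_ ?_
  · -- growth
    have h1 := tendsto_linear_root (B := 1) one_pos
    have h2 : Tendsto (fun n : ℕ => (2 : ℝ) ^ (1 / (n : ℝ))) atTop (nhds 1) := by
      have h5 : Tendsto (fun n : ℕ => 1 / (n : ℝ)) atTop (nhds 0) :=
        tendsto_one_div_atTop_nhds_zero_nat
      have h6 := (Real.continuousAt_const_rpow (show (2 : ℝ) ≠ 0 by norm_num) (b := 0)).tendsto.comp
        h5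
      simpa [Function.comp_def] using h6
    have h3 := (h2.mul hlim).mul (h1.mul h1)
    simp only [mul_one] at h3
    refine h3.congr fun n => ?_
    have hn : (0 : ℝ) ≤ (n : ℝ) + 1 := by positivity
    rw [Real.mul_rpow (by have := hM n; positivity) (by positivity),
      Real.mul_rpow (by norm_num) (hM n).le, sq, Real.mul_rpow hn hn]
  · intro n hn x hx y hy
    have h1 := hN n hn x hx y hy
    have hfin' : IsFiniteMeasure (μ.map (SimpleFunc.nearestPt e (N n))) := inferInstance
    have h2 : w n * ∫ z, rieszFun α x z ∂(μ.map (SimpleFunc.nearestPt e (N n))) ≤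
        ∫ z, rieszFun α x z ∂μ' := by
      have h3 : w n * ∫ z, rieszFun α x z ∂(μ.map (SimpleFunc.nearestPt e (N n))) =
          ∫ z, rieszFun α x z ∂(ν n) := by
        simp only [ν]
        rw [integral_smul_measure, smul_eq_mul, ENNReal.toReal_ofReal (hw0 n).le]
      rw [h3]
      refine integral_mono_measure (Measure.le_sum ν n)
        (Eventually.of_forall fun z => rieszFun_nonneg x z) (integrable_rieszFun hα x μ')
    have h4 : ∫ z, rieszFun α x z ∂(μ.map (SimpleFunc.nearestPt e (N n))) ≤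
        ((n : ℝ) + 1) ^ 2 * ∫ z, rieszFun α x z ∂μ' := by
      have h5 : ((n : ℝ) + 1) ^ 2 * w n = 1 := by
        simp only [w]; field_simp
      calc ∫ z, rieszFun α x z ∂(μ.map (SimpleFunc.nearestPt e (N n)))
          = ((n : ℝ) + 1) ^ 2 * (w n * ∫ z, rieszFun α x z ∂(μ.map (SimpleFunc.nearestPt e (N n)))) := by
            rw [← mul_assoc, h5, one_mul]
        _ ≤ _ := mul_le_mul_of_nonneg_left h2 (by positivity)
    calc rieszFun α x y ≤ 2 * M n * ∫ z, rieszFun α x z ∂(μ.map (SimpleFunc.nearestPt e (N n))) := h1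
      _ ≤ 2 * M n * (((n : ℝ) + 1) ^ 2 * ∫ z, rieszFun α x z ∂μ') := by
          have := hM n
          gcongr
      _ = 2 * M n * ((n : ℝ) + 1) ^ 2 * ∫ z, rieszFun α x z ∂μ' := by ring

end Pool.Agent.Lib.MP_a7495c_an
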