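import Pool.Agent.Lib.MP_a7495c_an.Potential

open MeasureTheory Set Filter
open scoped ENNReal

namespace Pool.Agent.Lib.MP_a7495c_an

variable {d : ℕ} {α : ℝ}

/-- The general criterion: a measure with polynomial lower mass bounds has the Bernstein–Markov
property as soon as the minimal potentials `A n` grow subexponentially. -/
theorem bm_of_growth (hα : 0 < α) {K : Set (EuclideanSpace ℝ (Fin d))} (hne : K.Nonempty)
    {μ : Measure (EuclideanSpace ℝ (Fin d))} [IsFiniteMeasure μ]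
    {c T r₀ : ℝ} (hc : 0 < c) (hr₀ : 0 < r₀)
    (hμ : ∀ y ∈ K, ∀ r, 0 < r → r ≤ r₀ → c * r ^ T ≤ μ.real (Metric.closedBall y r))
    (A : ℕ → ℝ) (hA : ∀ n, 1 ≤ A n)
    (hlim : Tendsto (fun n : ℕ => (A n) ^ (1 / (n : ℝ))) atTop (nhds 1))
    (hpot : ∀ n : ℕ, 2 ≤ n → ∀ x : Fin (n - 1) → EuclideanSpace ℝ (Fin d), (∀ j, x j ∈ K) →
      ∃ y ∈ K, (∀ j, y ≠ x j) ∧ ∑ j, (dist y (x j)) ^ (-α) ≤ A n) :
    BernsteinMarkov α K μ := by
  -- shrink the radius
  set r₁ : ℝ := min r₀ 1 with hr₁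
  have hr₁0 : 0 < r₁ := lt_min hr₀ one_pos
  have hr₁1 : r₁ ≤ 1 := min_le_right _ _
  let ρ : ℕ → ℝ := fun n => r₁ * (1 / (2 * A n) * (A n) ^ (-(1 / α)))
  have hApos : ∀ n, 0 < A n := fun n => lt_of_lt_of_le one_pos (hA n)
  have hρ0 : ∀ n, 0 < ρ n := fun n => by
    have h1 := hApos n
    have h2 : 0 < (A n) ^ (-(1 / α)) := Real.rpow_pos_of_pos h1 _
    positivity
  have hρle : ∀ n, 1 / (2 * A n) * (A n) ^ (-(1 / α)) ≤ 1 := by
    intro n
    have h1 := hApos n
    have h2 : (A n) ^ (-(1 / α)) ≤ 1 :=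
      Real.rpow_le_one_of_one_le_of_nonpos (hA n) (by
        have : 0 < 1 / α := by positivity
        linarith)
    have h3 : 1 / (2 * A n) ≤ 1 := by
      rw [div_le_one (by positivity)]; linarith [hA n]
    exact mul_le_one₀ h3 (Real.rpow_nonneg h1.le _) h2
  have hρr : ∀ n, ρ n ≤ r₀ := fun n => by
    calc ρ n ≤ r₁ * 1 := mul_le_mul_of_nonneg_left (hρle n) hr₁0.le
      _ ≤ r₀ := by rw [mul_one]; exact min_le_left _ _
  have hρ' : ∀ n, ρ n ≤ 1 / (2 * A n) * (A n) ^ (-(1 / α)) := fun n => by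
    have h1 := hApos n
    have h2 : 0 < (A n) ^ (-(1 / α)) := Real.rpow_pos_of_pos h1 _
    exact mul_le_of_le_one_left (by positivity) hr₁1
  set D : ℝ := Real.exp (α * Real.exp α) with hD
  have hD0 : 0 < D := Real.exp_pos _
  let M : ℕ → ℝ := fun n => D * (c⁻¹ * ((ρ n)⁻¹) ^ T)
  have hM0 : ∀ n, 0 < M n := fun n => by
    have h1 := Real.rpow_pos_of_pos (inv_pos.mpr (hρ0 n)) T
    positivity
  refine bernsteinMarkov_of_forall hne hM0 ?_ ?_
  · -- growth of the constants
    have hform : ∀ n, M n = (D * c⁻¹ * (2 * r₁⁻¹) ^ T) * ((A n) ^ (1 + 1 / α)) ^ T := by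
      intro n
      have h1 := hApos n
      have h2 : (ρ n)⁻¹ = (2 * r₁⁻¹) * (A n) ^ (1 + 1 / α) := by
        simp only [ρ]
        rw [mul_inv, mul_inv, Real.rpow_neg h1.le, inv_inv, Real.rpow_add h1, Real.rpow_one,
          one_div, inv_inv]
        ring
      simp only [M]
      rw [h2, Real.mul_rpow (by positivity) (Real.rpow_nonneg h1.le _)]
      ring
    set C : ℝ := D * c⁻¹ * (2 * r₁⁻¹) ^ T with hC
    have hC0 : 0 < C := by
      have : 0 < (2 * r₁⁻¹) ^ T := Real.rpow_pos_of_pos (by positivity) _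
      positivity
    have h3 : ∀ n : ℕ, (M n) ^ (1 / (n : ℝ)) =
        C ^ (1 / (n : ℝ)) * ((A n) ^ (1 / (n : ℝ))) ^ ((1 + 1 / α) * T) := by
      intro n
      have h1 := hApos n
      rw [hform n, Real.mul_rpow hC0.le (Real.rpow_nonneg (Real.rpow_nonneg h1.le _) _)]
      congr 1
      rw [← Real.rpow_mul h1.le, ← Real.rpow_mul h1.le, ← Real.rpow_mul h1.le]
      congr 1
      ring
    have h4 : Tendsto (fun n : ℕ => C ^ (1 / (n : ℝ))) atTop (nhds 1) := by
      have h5 : Tendsto (fun n : ℕ => 1 / (n : ℝ)) atTop (nhds 0) := tendsto_one_div_atTop_nhds_zero_nat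
      have h6 := (Real.continuousAt_const_rpow hC0.ne' (b := 0)).tendsto.comp h5
      simpa [Function.comp_def] using h6
    have h7 : Tendsto (fun n : ℕ => ((A n) ^ (1 / (n : ℝ))) ^ ((1 + 1 / α) * T)) atTop
        (nhds 1) := by
      have h8 := hlim.rpow_const (p := (1 + 1 / α) * T) (Or.inl one_ne_zero)
      simpa using h8
    have h9 := h4.mul h7
    rw [mul_one] at h9
    exact h9.congr fun n => (h3 n).symm
  · intro n hn x hx y hy
    have hint : Integrable (rieszFun α x) μ := integrable_rieszFun hα x μ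
    have hI0 : 0 ≤ ∫ z, rieszFun α x z ∂μ := integral_nonneg fun z => rieszFun_nonneg x z
    by_cases hyx : ∃ j, y = x j
    · rw [rieszFun_of_eq hyx]
      exact mul_nonneg (hM0 n).le hI0
    push Not at hyx
    obtain ⟨y₀, hy₀K, hy₀x, hy₀⟩ := hpot n hn x hx
    -- choose the better point
    obtain ⟨y', hy'K, hy'x, hy'A, hle⟩ : ∃ y' ∈ K, (∀ j, y' ≠ x j) ∧
        ∑ j, (dist y' (x j)) ^ (-α) ≤ A n ∧ rieszFun α x y ≤ rieszFun α x y' := by
      by_cases h : ∑ j, (dist y (x j)) ^ (-α) ≤ A n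
      · exact ⟨y, hy, hyx, h, le_refl _⟩
      · refine ⟨y₀, hy₀K, hy₀x, hy₀, ?_⟩
        rw [rieszFun_of_ne hyx, rieszFun_of_ne hy₀x]
        apply Real.exp_le_exp.mpr
        linarith
    have hball : ∀ z ∈ Metric.closedBall y' (ρ n), D⁻¹ * rieszFun α x y' ≤ rieszFun α x z := by
      intro z hz
      have h1 : dist z y' ≤ 1 / (2 * A n) * (A n) ^ (-(1 / α)) :=
        (Metric.mem_closedBall.mp hz).trans (hρ' n)
      have h2 := rieszFun_near hα hy'x (hA n) hy'A h1
      rw [Real.exp_neg] at h2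
      exact h2
    have hlow : D⁻¹ * rieszFun α x y' * (c * (ρ n) ^ T) ≤ ∫ z, rieszFun α x z ∂μ := by
      calc D⁻¹ * rieszFun α x y' * (c * (ρ n) ^ T)
          ≤ D⁻¹ * rieszFun α x y' * μ.real (Metric.closedBall y' (ρ n)) := by
            refine mul_le_mul_of_nonneg_left (hμ y' hy'K (ρ n) (hρ0 n) (hρr n)) ?_
            exact mul_nonneg (inv_pos.mpr hD0).le (rieszFun_nonneg x y')
        _ = ∫ _z in Metric.closedBall y' (ρ n), D⁻¹ * rieszFun α x y' ∂μ := by
            rw [setIntegral_const, smul_eq_mul, mul_comm]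
        _ ≤ ∫ z in Metric.closedBall y' (ρ n), rieszFun α x z ∂μ := by
            refine setIntegral_mono_on ?_ hint.integrableOn Metric.isClosed_closedBall.measurableSet
              hball
            exact (integrable_const _).integrableOn
        _ ≤ ∫ z, rieszFun α x z ∂μ :=
            setIntegral_le_integral hint (Eventually.of_forall fun z => rieszFun_nonneg x z)
    have hρT : 0 < (ρ n) ^ T := Real.rpow_pos_of_pos (hρ0 n) T
    calc rieszFun α x y ≤ rieszFun α x y' := hle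
      _ = M n * (D⁻¹ * rieszFun α x y' * (c * (ρ n) ^ T)) := by
          simp only [M]
          rw [Real.inv_rpow (hρ0 n).le]
          field_simp
      _ ≤ M n * ∫ z, rieszFun α x z ∂μ := mul_le_mul_of_nonneg_left hlow (hM0 n).le

/-- `n ↦ ((n+1) B)^(1/n)` tends to `1`. -/
lemma tendsto_linear_root {B : ℝ} (hB : 0 < B) :
    Tendsto (fun n : ℕ => (((n : ℝ) + 1) * B) ^ (1 / (n : ℝ))) atTop (nhds 1) := by
  have h0 : Tendsto (fun n : ℕ => (n : ℝ) ^ (1 / (n : ℝ))) atTop (nhds 1) :=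
    tendsto_rpow_div.comp tendsto_natCast_atTop_atTop
  have h5 : Tendsto (fun n : ℕ => 1 / (n : ℝ)) atTop (nhds 0) := tendsto_one_div_atTop_nhds_zero_nat
  have h1 : Tendsto (fun n : ℕ => (2 * B) ^ (1 / (n : ℝ))) atTop (nhds 1) := by
    have h6 := (Real.continuousAt_const_rpow (show 2 * B ≠ 0 by positivity) (b := 0)).tendsto.comp h5
    simpa [Function.comp_def] using h6
  have h1' : Tendsto (fun n : ℕ => B ^ (1 / (n : ℝ))) atTop (nhds 1) := by
    have h6 := (Real.continuousAt_const_rpow hB.ne' (b := 0)).tendsto.comp h5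
    simpa [Function.comp_def] using h6
  have h2 := h1.mul h0
  rw [mul_one] at h2
  refine tendsto_of_tendsto_of_tendsto_of_le_of_le' h1' h2 ?_ ?_
  · refine Eventually.of_forall fun n => ?_
    refine Real.rpow_le_rpow hB.le ?_ (by positivity)
    have : (0 : ℝ) ≤ n := Nat.cast_nonneg n
    nlinarith
  · filter_upwards [eventually_ge_atTop 1] with n hn
    rw [← Real.mul_rpow (by positivity) (Nat.cast_nonneg n)]
    refine Real.rpow_le_rpow (by positivity) ?_ (by positivity)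
    have h3 : (1 : ℝ) ≤ n := by exact_mod_cast hn
    nlinarith

/-- Positive capacity and polynomial lower mass bounds imply the Bernstein–Markov property. -/
theorem bm_of_capacity (hα : 0 < α) {K : Set (EuclideanSpace ℝ (Fin d))}
    (hcap : PositiveCapacity α K)
    {μ : Measure (EuclideanSpace ℝ (Fin d))} [IsFiniteMeasure μ]
    {c T r₀ : ℝ} (hc : 0 < c) (hr₀ : 0 < r₀)
    (hμ : ∀ y ∈ K, ∀ r, 0 < r → r ≤ r₀ → c * r ^ T ≤ μ.real (Metric.closedBall y r)) :
    BernsteinMarkov α K μ := by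
  obtain ⟨B, hB, hpot⟩ := exists_small_potential hα hcap
  have hB0 : 0 < B := by linarith
  have hne : K.Nonempty := by
    obtain ⟨y, hy, _⟩ := hpot 0 (fun i => i.elim0)
    exact ⟨y, hy⟩
  refine bm_of_growth hα hne hc hr₀ hμ (fun n => ((n : ℝ) + 1) * B) ?_
    (tendsto_linear_root hB0) ?_
  · intro n
    have : (0 : ℝ) ≤ n := Nat.cast_nonneg n
    nlinarith
  · intro n hn x hx
    obtain ⟨y, hy, hyx, hs⟩ := hpot (n - 1) x
    refine ⟨y, hy, hyx, hs.trans ?_⟩
    have h1 : ((n - 1 : ℕ) : ℝ) ≤ (n : ℝ) + 1 := by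
      have : n - 1 ≤ n + 1 := by omega
      exact_mod_cast this
    exact mul_le_mul_of_nonneg_right h1 hB0.le

/-- Polynomial-size nets of bounded subsets of `ℝ^d`. -/
lemma exists_net {K : Set (EuclideanSpace ℝ (Fin d))} (hK : Bornology.IsBounded K) :
    ∃ C : ℝ, 1 ≤ C ∧ ∀ k : ℕ, ∃ F : Finset (EuclideanSpace ℝ (Fin d)), (∀ z ∈ F, z ∈ K) ∧
      (F.card : ℝ) ≤ (C * 2 ^ k) ^ d ∧ ∀ y ∈ K, ∃ z ∈ F, dist z y ≤ (1 / 2) ^ k := by
  classical
  obtain ⟨R, hR⟩ := hK.subset_closedBall 0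
  set R' : ℝ := max R 0 with hR'
  have hR0 : 0 ≤ R' := le_max_right _ _
  have hKR : ∀ y ∈ K, ∀ i, |y i| ≤ R' := by
    intro y hy i
    have h1 : ‖y‖ ≤ R := by
      have := hR hy
      rwa [mem_closedBall_zero_iff] at this
    have h2 : ‖y i‖ ≤ ‖y‖ := PiLp.norm_apply_le y i
    rw [Real.norm_eq_abs] at h2
    exact h2.trans (h1.trans (le_max_left _ _))
  refine ⟨2 * (R' * (d + 1)) + 5, by positivity |> fun (h : (0:ℝ) ≤ 2 * (R' * (d + 1))) => by linarith,
    fun k => ?_⟩
  set s : ℝ := (1 / 2) ^ k / (d + 1) with hs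
  have hd1 : (0 : ℝ) < (d : ℝ) + 1 := by positivity
  have hs0 : 0 < s := by positivity
  let φ : EuclideanSpace ℝ (Fin d) → (Fin d → ℤ) := fun y i => ⌊y i / s⌋
  let Mz : ℤ := ⌈R' / s⌉ + 1
  have hφ : ∀ y ∈ K, φ y ∈ Fintype.piFinset (fun _ : Fin d => Finset.Icc (-Mz) Mz) := by
    intro y hy
    rw [Fintype.mem_piFinset]
    intro i
    rw [Finset.mem_Icc]
    have h1 := hKR y hy i
    rw [abs_le] at h1
    have h2 : y i / s ≤ R' / s := div_le_div_of_nonneg_right h1.2 hs0.le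
    have h3 : -(R' / s) ≤ y i / s := by
      rw [← neg_div]; exact div_le_div_of_nonneg_right h1.1 hs0.le
    have h4 : R' / s ≤ ⌈R' / s⌉ := Int.le_ceil _
    constructor
    · -- lower bound
      have h5 : (-(Mz : ℝ)) ≤ (⌊y i / s⌋ : ℝ) := by
        have h6 := Int.lt_floor_add_one (y i / s)
        simp only [Mz]
        push_cast
        linarith
      exact_mod_cast h5
    · have h5 : (⌊y i / s⌋ : ℝ) ≤ (Mz : ℝ) := by
        have h6 := Int.floor_le (y i / s)
        simp only [Mz]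
        push_cast
        linarith
      exact_mod_cast h5
  -- representatives
  let P : Finset (Fin d → ℤ) := (Fintype.piFinset (fun _ : Fin d => Finset.Icc (-Mz) Mz)).filter
    (fun a => ∃ y ∈ K, φ y = a)
  have hP : ∀ a ∈ P, ∃ y ∈ K, φ y = a := fun a ha => (Finset.mem_filter.mp ha).2
  choose! rep hrepK hrep using hP
  refine ⟨P.image rep, ?_, ?_, ?_⟩
  · intro z hz
    obtain ⟨a, ha, rfl⟩ := Finset.mem_image.mp hz
    exact hrepK a ha
  · have h1 : (P.image rep).card ≤ (Finset.Icc (-Mz) Mz).card ^ d := by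
      calc (P.image rep).card ≤ P.card := Finset.card_image_le
        _ ≤ (Fintype.piFinset (fun _ : Fin d => Finset.Icc (-Mz) Mz)).card :=
            Finset.card_filter_le _ _
        _ = (Finset.Icc (-Mz) Mz).card ^ d := by
            rw [Fintype.card_piFinset]; simp
    have hMz0 : 0 ≤ Mz := by
      have : 0 ≤ ⌈R' / s⌉ := Int.ceil_nonneg (by positivity)
      simp only [Mz]; omega
    have h2 : ((Finset.Icc (-Mz) Mz).card : ℝ) = 2 * (Mz : ℝ) + 1 := by
      rw [Int.card_Icc]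
      have h3 : ((Mz + 1 - -Mz).toNat : ℤ) = 2 * Mz + 1 := by
        rw [Int.toNat_of_nonneg (by omega)]; ring
      have h4 : (((Mz + 1 - -Mz).toNat : ℤ) : ℝ) = ((2 * Mz + 1 : ℤ) : ℝ) := by rw [h3]
      push_cast at h4
      exact h4
    have h5 : 2 * (Mz : ℝ) + 1 ≤ (2 * (R' * (d + 1)) + 5) * 2 ^ k := by
      have h7 : R' / s = R' * (d + 1) * 2 ^ k := by
        rw [hs]; field_simp
        rw [mul_assoc, ← mul_pow]; norm_num
      have h6 : (⌈R' / s⌉ : ℝ) < R' * (d + 1) * 2 ^ k + 1 := by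
        rw [← h7]; exact Int.ceil_lt_add_one _
      have h8 : (1 : ℝ) ≤ 2 ^ k := one_le_pow₀ (by norm_num)
      have h9 : (Mz : ℝ) = ⌈R' / s⌉ + 1 := by simp only [Mz]; push_cast; ring
      rw [h9]
      have h10 : (2 * (R' * (d + 1)) + 5) * 2 ^ k = 2 * (R' * (d + 1) * 2 ^ k) + 5 * 2 ^ k := by
        ring
      linarith
    calc ((P.image rep).card : ℝ) ≤ (((Finset.Icc (-Mz) Mz).card ^ d : ℕ) : ℝ) := by
          exact_mod_cast h1
      _ = (2 * (Mz : ℝ) + 1) ^ d := by push_cast; rw [h2]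
      _ ≤ ((2 * (R' * (d + 1)) + 5) * 2 ^ k) ^ d := by
          refine pow_le_pow_left₀ ?_ h5 d
          have : (0 : ℝ) ≤ (Mz : ℝ) := by exact_mod_cast hMz0
          linarith
  · intro y hy
    have ha : φ y ∈ P := Finset.mem_filter.mpr ⟨hφ y hy, y, hy, rfl⟩
    refine ⟨rep (φ y), Finset.mem_image_of_mem _ ha, ?_⟩
    have h1 : φ (rep (φ y)) = φ y := hrep _ ha
    set z := rep (φ y) with hz
    have h2 : ∀ i, |z i - y i| ≤ s := by
      intro i
      have h3 : ⌊z i / s⌋ = ⌊y i / s⌋ := congrFun h1 i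
      have h4 := Int.abs_sub_lt_one_of_floor_eq_floor h3
      have h5 : |z i - y i| = |z i / s - y i / s| * s := by
        rw [← sub_div, abs_div, abs_of_pos hs0]; field_simp
      rw [h5]
      nlinarith [abs_nonneg (z i / s - y i / s)]
    rw [EuclideanSpace.dist_eq]
    have h6 : ∑ i, dist (z i) (y i) ^ 2 ≤ ((1 / 2) ^ k) ^ 2 := by
      calc ∑ i, dist (z i) (y i) ^ 2 ≤ ∑ _i : Fin d, s ^ 2 := by
            refine Finset.sum_le_sum fun i _ => ?_
            rw [Real.dist_eq]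
            exact pow_le_pow_left₀ (abs_nonneg _) (h2 i) 2
        _ = d * s ^ 2 := by simp
        _ ≤ (d + 1) ^ 2 * s ^ 2 := by
            refine mul_le_mul_of_nonneg_right ?_ (sq_nonneg _)
            have : (0 : ℝ) ≤ d := Nat.cast_nonneg d
            nlinarith
        _ = ((1 / 2) ^ k) ^ 2 := by rw [hs]; field_simp
    calc Real.sqrt (∑ i, dist (z i) (y i) ^ 2) ≤ Real.sqrt (((1 / 2) ^ k) ^ 2) :=
          Real.sqrt_le_sqrt h6
      _ = (1 / 2) ^ k := Real.sqrt_sq (by positivity)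

/-- On every nonempty bounded set of `ℝ^d` there is a finite discrete measure with polynomial lower
mass bounds. -/
lemma exists_discrete_measure {K : Set (EuclideanSpace ℝ (Fin d))} (hK : Bornology.IsBounded K) :
    ∃ μ : Measure (EuclideanSpace ℝ (Fin d)), IsFiniteMeasure μ ∧ μ Kᶜ = 0 ∧ IsDiscreteOn K μ ∧
      ∃ c > 0, ∀ y ∈ K, ∀ r : ℝ, 0 < r → r ≤ 1 →
        c * r ^ ((d : ℝ) + 1) ≤ μ.real (Metric.closedBall y r) := by
  classical
  obtain ⟨C, hC, hF⟩ := exists_net hK
  choose F hFK hFcard hFnet using hF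
  have hC0 : 0 < C := by linarith
  let w : ℕ → ℝ := fun k => (1 / 2) ^ k / (C * 2 ^ k) ^ d
  have hw0 : ∀ k, 0 < w k := fun k => by positivity
  let ν : ℕ → Measure (EuclideanSpace ℝ (Fin d)) := fun k =>
    ENNReal.ofReal (w k) • ∑ z ∈ F k, Measure.dirac z
  let μ : Measure (EuclideanSpace ℝ (Fin d)) := Measure.sum ν
  have hνuniv : ∀ k, ν k univ ≤ ENNReal.ofReal ((1 / 2) ^ k) := by
    intro k
    simp only [ν]
    rw [Measure.smul_apply, Measure.finsetSum_apply, smul_eq_mul]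
    simp only [measure_univ, Finset.sum_const, nsmul_eq_mul, mul_one]
    have h1 : ((F k).card : ℝ≥0∞) = ENNReal.ofReal ((F k).card : ℝ) := by
      rw [ENNReal.ofReal_natCast]
    rw [h1, ← ENNReal.ofReal_mul (hw0 k).le]
    apply ENNReal.ofReal_le_ofReal
    simp only [w]
    rw [div_mul_eq_mul_div, div_le_iff₀ (by positivity)]
    exact mul_le_mul_of_nonneg_left (hFcard k) (by positivity)
  have hfin : IsFiniteMeasure μ := by
    constructor
    simp only [μ]
    rw [Measure.sum_apply _ MeasurableSet.univ]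
    calc ∑' k, ν k univ ≤ ∑' k : ℕ, ENNReal.ofReal ((1 / 2) ^ k) := ENNReal.tsum_le_tsum hνuniv
      _ = ENNReal.ofReal (∑' k : ℕ, (1 / 2 : ℝ) ^ k) :=
          (ENNReal.ofReal_tsum_of_nonneg (fun k => by positivity) summable_geometric_two).symm
      _ < ∞ := ENNReal.ofReal_lt_top
  let S : Set (EuclideanSpace ℝ (Fin d)) := ⋃ k, (F k : Set (EuclideanSpace ℝ (Fin d)))
  have hSc : S.Countable := countable_iUnion fun k => (F k).countable_toSet
  have hSK : S ⊆ K := by
    intro z hz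
    obtain ⟨k, hk⟩ := mem_iUnion.mp hz
    exact hFK k z hk
  have hSμ : μ Sᶜ = 0 := by
    simp only [μ]
    rw [Measure.sum_apply _ hSc.measurableSet.compl, ENNReal.tsum_eq_zero]
    intro k
    simp only [ν]
    rw [Measure.smul_apply, Measure.finsetSum_apply, smul_eq_mul]
    have : ∑ z ∈ F k, Measure.dirac z Sᶜ = 0 := by
      refine Finset.sum_eq_zero fun z hz => ?_
      rw [Measure.dirac_apply' _ hSc.measurableSet.compl, indicator_of_notMem]
      intro h
      exact h (mem_iUnion.mpr ⟨k, hz⟩)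
    rw [this, mul_zero]
  refine ⟨μ, hfin, ?_, isDiscreteOn_of_countable hSc hSK hSμ, (C ^ d)⁻¹ * (1 / 2) ^ (d + 1),
    by positivity, ?_⟩
  · exact measure_mono_null (compl_subset_compl.mpr hSK) hSμ
  · intro y hy r hr0 hr1
    obtain ⟨n, hn1, hn2⟩ := exists_nat_pow_near_of_lt_one hr0 hr1 (by norm_num : (0:ℝ) < 1 / 2)
      (by norm_num : (1:ℝ) / 2 < 1)
    set k := n + 1 with hk
    have hrk : r / 2 ≤ (1 / 2) ^ k := by
      rw [hk, pow_succ]; linarith
    obtain ⟨z, hzF, hzy⟩ := hFnet k y hy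
    have hzball : z ∈ Metric.closedBall y r := by
      rw [Metric.mem_closedBall]; exact hzy.trans hn1.le
    have h1 : ENNReal.ofReal (w k) ≤ μ (Metric.closedBall y r) := by
      calc ENNReal.ofReal (w k) ≤ ν k (Metric.closedBall y r) := by
            simp only [ν]
            rw [Measure.smul_apply, Measure.finsetSum_apply, smul_eq_mul]
            have h2 : (1 : ℝ≥0∞) ≤ ∑ z ∈ F k, Measure.dirac z (Metric.closedBall y r) := by
              refine le_trans ?_ (Finset.single_le_sum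
                (f := fun z => Measure.dirac z (Metric.closedBall y r)) (fun i _ => zero_le) hzF)
              rw [Measure.dirac_apply_of_mem hzball]
            calc ENNReal.ofReal (w k) = ENNReal.ofReal (w k) * 1 := by rw [mul_one]
              _ ≤ _ := by gcongr
        _ ≤ ∑' k, ν k (Metric.closedBall y r) := ENNReal.le_tsum k
        _ = μ (Metric.closedBall y r) := by
            simp only [μ]
            rw [Measure.sum_apply _ Metric.isClosed_closedBall.measurableSet]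
    have h3 : w k ≤ μ.real (Metric.closedBall y r) :=
      (ENNReal.ofReal_le_iff_le_toReal (measure_ne_top μ _)).mp h1
    refine le_trans ?_ h3
    have h4 : w k = (C ^ d)⁻¹ * ((1 / 2) ^ k) ^ (d + 1) := by
      simp only [w]
      rw [mul_pow, pow_succ ((1 / 2 : ℝ) ^ k) d]
      have : ((1 / 2 : ℝ) ^ k) ^ d = ((2 ^ k) ^ d)⁻¹ := by
        rw [one_div, inv_pow, inv_pow]
      rw [this]
      field_simp
    have h5 : r ^ ((d : ℝ) + 1) = r ^ (d + 1) := by
      rw [← Real.rpow_natCast]; push_cast; rfl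
    rw [h4, h5, mul_assoc, ← mul_pow]
    refine mul_le_mul_of_nonneg_left ?_ (by positivity)
    refine pow_le_pow_left₀ (by positivity) ?_ (d + 1)
    linarith

end Pool.Agent.Lib.MP_a7495c_an
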