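import Pool.Agent.Lib.MP_a7495c_an.Basic

open MeasureTheory Set Filter
open scoped ENNReal

namespace Pool.Agent.Lib.MP_a7495c_an

variable {d : ℕ} {α : ℝ}

/-- Comparison of kernels: if `dist x' y ≤ 2 * dist x y` then
`|x - y|^(-α) ≤ 2^α |x' - y|^(-α)`. -/
lemma kernel_le (hα : 0 < α) {x x' y : EuclideanSpace ℝ (Fin d)}
    (h : edist x' y ≤ 2 * edist x y) :
    (edist x y) ^ (-α) ≤ 2 ^ α * (edist x' y) ^ (-α) := by
  rw [ENNReal.rpow_neg, ENNReal.rpow_neg]
  have h1 : (edist x' y) ^ α ≤ 2 ^ α * (edist x y) ^ α := by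
    calc (edist x' y) ^ α ≤ (2 * edist x y) ^ α := ENNReal.rpow_le_rpow h hα.le
      _ = 2 ^ α * (edist x y) ^ α := ENNReal.mul_rpow_of_nonneg _ _ hα.le
  have h2 : (2 : ℝ≥0∞) ^ α ≠ 0 := by
    have : (0 : ℝ≥0∞) < 2 ^ α := ENNReal.rpow_pos (by norm_num) (by norm_num)
    exact this.ne'
  have h3 : (2 : ℝ≥0∞) ^ α ≠ ∞ := ENNReal.rpow_ne_top_of_nonneg hα.le (by norm_num)
  calc ((edist x y) ^ α)⁻¹ = 2 ^ α * (2 ^ α * (edist x y) ^ α)⁻¹ := by
        rw [ENNReal.mul_inv (Or.inl h2) (Or.inl h3), ← mul_assoc, ENNReal.mul_inv_cancel h2 h3,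
          one_mul]
    _ ≤ 2 ^ α * ((edist x' y) ^ α)⁻¹ := by
        gcongr

/-- A set of positive capacity carries a probability measure with bounded potential. -/
lemma exists_bounded_potential (hα : 0 < α) {K : Set (EuclideanSpace ℝ (Fin d))}
    (hcap : PositiveCapacity α K) :
    ∃ (ν : Measure (EuclideanSpace ℝ (Fin d))) (B : ℝ≥0∞), IsProbabilityMeasure ν ∧ ν Kᶜ = 0 ∧
      B ≠ ∞ ∧ ∀ x, ∫⁻ y, (edist x y) ^ (-α) ∂ν ≤ B := by
  obtain ⟨ν, hν, hνK, hen⟩ := hcap
  let U : EuclideanSpace ℝ (Fin d) → ℝ≥0∞ := fun x => ∫⁻ y, (edist x y) ^ (-α) ∂ν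
  have hUm : Measurable U := by
    have h0 : Measurable (fun p : EuclideanSpace ℝ (Fin d) × EuclideanSpace ℝ (Fin d) =>
        (edist p.1 p.2) ^ (-α)) := (measurable_fst.edist measurable_snd).pow_const (-α)
    exact h0.lintegral_prod_right'
  have hUint : ∫⁻ x, U x ∂ν < ∞ := hen
  -- a level set of positive measure
  set I : ℝ≥0∞ := ∫⁻ x, U x ∂ν with hI
  set L : ℝ≥0∞ := 2 * I + 2 with hL
  have hLtop : L ≠ ∞ := by
    rw [hL]
    exact ENNReal.add_ne_top.mpr ⟨ENNReal.mul_ne_top (by norm_num) hUint.ne, by norm_num⟩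
  have hLpos : L ≠ 0 := by
    rw [hL]
    intro h
    have := (add_eq_zero.mp h).2
    norm_num at this
  let S : Set (EuclideanSpace ℝ (Fin d)) := {x | U x < L}
  have hSm : MeasurableSet S := measurableSet_lt hUm measurable_const
  have hSc : ν Sᶜ ≤ 1 / 2 := by
    have h1 : Sᶜ = {x | L ≤ U x} := by
      ext x; simp [S]
    rw [h1]
    have h2 := meas_ge_le_lintegral_div (μ := ν) hUm.aemeasurable hLpos hLtop
    refine h2.trans ?_
    rw [ENNReal.div_le_iff hLpos hLtop, hL]
    rw [← hI]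
    have : (1 / 2 : ℝ≥0∞) * (2 * I + 2) = I + 1 := by
      rw [mul_add, ← mul_assoc]
      have h2 : (1 / 2 : ℝ≥0∞) * 2 = 1 := ENNReal.div_mul_cancel (by norm_num) (by norm_num)
      rw [h2, one_mul]
    rw [this]
    exact le_self_add
  have hSpos : 0 < ν S := by
    by_contra h
    have h0 : ν S = 0 := by rwa [pos_iff_ne_zero, not_not] at h
    have h1 : ν Sᶜ = 1 := by
      have := measure_add_measure_compl (μ := ν) hSm
      rw [h0, zero_add, measure_univ] at this
      exact this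
    rw [h1] at hSc
    norm_num at hSc
  -- a compact subset of positive measure
  obtain ⟨K₁, hK₁S, hK₁c, hK₁pos⟩ := hSm.exists_isCompact_lt_add (μ := ν)
    (measure_ne_top ν S) hSpos.ne'
  have hpos : 0 < ν K₁ := by
    by_contra h
    have h0 : ν K₁ = 0 := by rwa [pos_iff_ne_zero, not_not] at h
    rw [h0, zero_add] at hK₁pos
    exact lt_irrefl _ hK₁pos
  have hK₁m : MeasurableSet K₁ := hK₁c.measurableSet
  have hne : K₁.Nonempty := nonempty_of_measure_ne_zero hpos.ne'
  refine ⟨(ν K₁)⁻¹ • ν.restrict K₁, (ν K₁)⁻¹ * (2 ^ α * L), ?_, ?_, ?_, ?_⟩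
  · constructor
    rw [Measure.smul_apply, Measure.restrict_apply_univ, smul_eq_mul]
    exact ENNReal.inv_mul_cancel hpos.ne' (measure_ne_top _ _)
  · rw [Measure.smul_apply, smul_eq_mul]
    have : ν.restrict K₁ Kᶜ = 0 := by
      apply le_antisymm _ (zero_le)
      calc ν.restrict K₁ Kᶜ ≤ ν Kᶜ := Measure.restrict_apply_le _ _
        _ = 0 := hνK
    rw [this, mul_zero]
  · refine ENNReal.mul_ne_top (ENNReal.inv_ne_top.mpr hpos.ne') (ENNReal.mul_ne_top ?_ hLtop)
    exact ENNReal.rpow_ne_top_of_nonneg hα.le (by norm_num)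
  · intro x
    rw [lintegral_smul_measure, smul_eq_mul]
    gcongr
    -- nearest point
    obtain ⟨x', hx', hdist⟩ := hK₁c.exists_infDist_eq_dist hne x
    have hcomp : ∀ y ∈ K₁, edist x' y ≤ 2 * edist x y := by
      intro y hy
      have h1 : dist x x' ≤ dist x y := by
        rw [← hdist]; exact Metric.infDist_le_dist_of_mem hy
      have h2 : edist x x' ≤ edist x y := by
        rw [edist_dist, edist_dist]; exact ENNReal.ofReal_le_ofReal h1
      calc edist x' y ≤ edist x' x + edist x y := edist_triangle _ _ _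
        _ ≤ edist x y + edist x y := by rw [edist_comm x' x]; gcongr
        _ = 2 * edist x y := by rw [two_mul]
    calc ∫⁻ y in K₁, (edist x y) ^ (-α) ∂ν ≤ ∫⁻ y in K₁, 2 ^ α * (edist x' y) ^ (-α) ∂ν := by
          refine setLIntegral_mono' hK₁m fun y hy => kernel_le hα (hcomp y hy)
      _ ≤ ∫⁻ y, 2 ^ α * (edist x' y) ^ (-α) ∂ν := setLIntegral_le_lintegral _ _
      _ = 2 ^ α * U x' := by
          rw [lintegral_const_mul]
          exact (measurable_const.edist measurable_id).pow_const (-α)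
      _ ≤ 2 ^ α * L := by
          gcongr
          exact (hK₁S hx').le

/-- Existence of a point of `K` with small total potential. -/
lemma exists_small_potential (hα : 0 < α) {K : Set (EuclideanSpace ℝ (Fin d))}
    (hcap : PositiveCapacity α K) :
    ∃ B : ℝ, 1 ≤ B ∧ ∀ (m : ℕ) (x : Fin m → EuclideanSpace ℝ (Fin d)), ∃ y ∈ K, (∀ j, y ≠ x j) ∧
      ∑ j, (dist y (x j)) ^ (-α) ≤ m * B := by
  obtain ⟨ν, B, hν, hνK, hB, hpot⟩ := exists_bounded_potential hα hcap
  refine ⟨max 1 B.toReal, le_max_left _ _, fun m x => ?_⟩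
  have hm : ∀ j : Fin m, Measurable fun y : EuclideanSpace ℝ (Fin d) => (edist y (x j)) ^ (-α) :=
    fun j => (measurable_id.edist measurable_const).pow_const (-α)
  obtain ⟨y, hyK, hy⟩ := exists_notMem_null_le_lintegral (μ := ν)
    (f := fun y => ∑ j, (edist y (x j)) ^ (-α))
    (Finset.measurable_sum _ fun j _ => hm j).aemeasurable hνK
  have hyK' : y ∈ K := not_not.mp hyK
  have hsum : ∑ j, (edist y (x j)) ^ (-α) ≤ m * B := by
    refine hy.trans ?_
    rw [lintegral_finsetSum _ fun j _ => hm j]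
    calc ∑ j, ∫⁻ a, (edist a (x j)) ^ (-α) ∂ν ≤ ∑ _j : Fin m, B := by
          refine Finset.sum_le_sum fun j _ => ?_
          have := hpot (x j)
          simpa [edist_comm] using this
      _ = m * B := by simp
  have hfin : ∀ j, (edist y (x j)) ^ (-α) ≠ ∞ := by
    intro j
    have h1 : (edist y (x j)) ^ (-α) ≤ ∑ j, (edist y (x j)) ^ (-α) :=
      Finset.single_le_sum (f := fun j => (edist y (x j)) ^ (-α)) (fun i _ => zero_le)
        (Finset.mem_univ j)
    exact ne_top_of_le_ne_top (ENNReal.mul_ne_top (ENNReal.natCast_ne_top m) hB) (h1.trans hsum)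
  have hne : ∀ j, y ≠ x j := by
    intro j hj
    apply hfin j
    rw [hj, edist_self, ENNReal.zero_rpow_of_neg (by linarith)]
  refine ⟨y, hyK', hne, ?_⟩
  have hreal : ∀ j, (edist y (x j)) ^ (-α) = ENNReal.ofReal ((dist y (x j)) ^ (-α)) := by
    intro j
    rw [edist_dist, ENNReal.ofReal_rpow_of_pos (dist_pos.mpr (hne j))]
  have h2 : ENNReal.ofReal (∑ j, (dist y (x j)) ^ (-α)) ≤ m * B := by
    rw [ENNReal.ofReal_sum_of_nonneg fun j _ => Real.rpow_nonneg dist_nonneg _]
    calc _ = ∑ j, (edist y (x j)) ^ (-α) := Finset.sum_congr rfl fun j _ => (hreal j).symm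
      _ ≤ m * B := hsum
  have h3 := (ENNReal.ofReal_le_iff_le_toReal (ENNReal.mul_ne_top (ENNReal.natCast_ne_top m) hB)).mp h2
  rw [ENNReal.toReal_mul, ENNReal.toReal_natCast] at h3
  refine h3.trans ?_
  gcongr
  exact le_max_right _ _

/-- Local comparison: moving from `y` to a nearby point does not decrease the function much. -/
lemma rieszFun_near (hα : 0 < α) {m : ℕ} {x : Fin m → EuclideanSpace ℝ (Fin d)}
    {y z : EuclideanSpace ℝ (Fin d)} (hy : ∀ j, y ≠ x j) {A : ℝ} (hA : 1 ≤ A)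
    (hU : ∑ j, (dist y (x j)) ^ (-α) ≤ A)
    (hz : dist z y ≤ 1 / (2 * A) * A ^ (-(1 / α))) :
    Real.exp (-(α * Real.exp α)) * rieszFun α x y ≤ rieszFun α x z := by
  have hA0 : 0 < A := by linarith
  set δ : ℝ := 1 / (2 * A) with hδ
  have hδ0 : 0 < δ := by positivity
  have hδ1 : δ ≤ 1 / 2 := by
    rw [hδ, div_le_div_iff₀ (by positivity) (by norm_num)]; linarith
  have hterm : ∀ j, (dist y (x j)) ^ (-α) ≤ A := by
    intro j
    refine (Finset.single_le_sum (f := fun j => (dist y (x j)) ^ (-α)) (fun i _ => ?_)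
      (Finset.mem_univ j)).trans hU
    exact Real.rpow_nonneg dist_nonneg _
  have hdist : ∀ j, A ^ (-(1 / α)) ≤ dist y (x j) := by
    intro j
    have hpos : 0 < dist y (x j) := dist_pos.mpr (hy j)
    have h1 := Real.rpow_le_rpow_of_nonpos (Real.rpow_pos_of_pos hpos (-α)) (hterm j)
      (show -(1 / α) ≤ 0 by
        have : 0 < 1 / α := by positivity
        linarith)
    rw [← Real.rpow_mul hpos.le] at h1
    have h2 : -α * -(1 / α) = 1 := by field_simp
    rw [h2, Real.rpow_one] at h1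
    exact h1
  have hzx : ∀ j, (1 - δ) * dist y (x j) ≤ dist z (x j) := by
    intro j
    have h1 : dist y (x j) ≤ dist y z + dist z (x j) := dist_triangle _ _ _
    have h2 : dist z y ≤ δ * dist y (x j) := hz.trans (by gcongr; exact hdist j)
    rw [dist_comm] at h2
    linarith
  have hne : ∀ j, z ≠ x j := by
    intro j hj
    have h1 := hzx j
    rw [hj, dist_self] at h1
    have h2 : 0 < (1 - δ) * dist y (x j) := mul_pos (by linarith) (dist_pos.mpr (hy j))
    linarith
  rw [rieszFun_of_ne hy, rieszFun_of_ne hne, ← Real.exp_add]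
  apply Real.exp_le_exp.mpr
  -- bound of the potential at z
  have hpot : ∑ j, (dist z (x j)) ^ (-α) ≤ (1 - δ) ^ (-α) * ∑ j, (dist y (x j)) ^ (-α) := by
    rw [Finset.mul_sum]
    refine Finset.sum_le_sum fun j _ => ?_
    have hpos : 0 < dist y (x j) := dist_pos.mpr (hy j)
    rw [← Real.mul_rpow (by linarith) hpos.le]
    exact Real.rpow_le_rpow_of_nonpos (mul_pos (by linarith) hpos) (hzx j) (by linarith)
  have hfac : (1 - δ) ^ (-α) ≤ Real.exp (α / A) := by
    have h1δ : 0 < 1 - δ := by linarith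
    rw [Real.rpow_def_of_pos h1δ]
    apply Real.exp_le_exp.mpr
    have hlog : -Real.log (1 - δ) ≤ 2 * δ := by
      rw [← Real.log_inv]
      refine (Real.log_le_sub_one_of_pos (inv_pos.mpr h1δ)).trans ?_
      rw [inv_eq_one_div, div_sub_one h1δ.ne', div_le_iff₀ h1δ]
      nlinarith
    have h3 : 2 * δ = 1 / A := by rw [hδ]; field_simp
    calc Real.log (1 - δ) * -α = α * (-Real.log (1 - δ)) := by ring
      _ ≤ α * (2 * δ) := mul_le_mul_of_nonneg_left hlog hα.le
      _ = α / A := by rw [h3]; ring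
  have hU0 : 0 ≤ ∑ j, (dist y (x j)) ^ (-α) :=
    Finset.sum_nonneg fun j _ => Real.rpow_nonneg dist_nonneg _
  set U := ∑ j, (dist y (x j)) ^ (-α) with hUdef
  have hexp : (Real.exp (α / A) - 1) * U ≤ α * Real.exp α := by
    have h1 : Real.exp (α / A) - 1 ≤ (α / A) * Real.exp (α / A) := by
      have := Real.add_one_le_exp (-(α / A))
      have h2 : Real.exp (-(α / A)) * Real.exp (α / A) = 1 := by
        rw [← Real.exp_add]; simp
      have h3 : 0 < Real.exp (α / A) := Real.exp_pos _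
      nlinarith
    have h2 : Real.exp (α / A) ≤ Real.exp α := by
      apply Real.exp_le_exp.mpr
      exact div_le_self hα.le hA
    have h3 : 0 ≤ Real.exp (α / A) - 1 := by
      have := Real.add_one_le_exp (α / A)
      have h4 : 0 ≤ α / A := by positivity
      linarith
    calc (Real.exp (α / A) - 1) * U ≤ (Real.exp (α / A) - 1) * A :=
          mul_le_mul_of_nonneg_left hU h3
      _ ≤ ((α / A) * Real.exp (α / A)) * A := mul_le_mul_of_nonneg_right h1 hA0.le
      _ = α * Real.exp (α / A) := by field_simp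
      _ ≤ α * Real.exp α := mul_le_mul_of_nonneg_left h2 hα.le
  have h4 : (1 - δ) ^ (-α) * U ≤ Real.exp (α / A) * U := mul_le_mul_of_nonneg_right hfac hU0
  nlinarith

end Pool.Agent.Lib.MP_a7495c_an
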